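import Mathlib

/-!
Extending invariant nonnegative subspaces of quaternion plus-matrices, singular case.

Let `H` be a singular hermitian quaternion matrix with `p` positive, `q` negative and `ν ≥ 1` zero
directions. Every `A`-invariant `H`-nonnegative subspace, `A` an `H`-plus-matrix, extends to an
`A`-invariant `H`-nonnegative subspace of dimension `p + ν` if and only if `p = 0` or `q = 0`.

For `p, q, ν ≥ 1` the counterexample is `A x = v f(x)`, where `v = e + e'`, `m = e - e'` are neutral,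
`f` vanishes on `m` and is `1` on a vector `w` of the kernel of `H`, and `M₀` is the line of `m`.
A maximal `H`-nonnegative subspace contains `w`, hence `A w = v`, hence `e'`.
-/

set_option autoImplicit false

open Quaternion MulOpposite Matrix

namespace Pool.Agent.Results.MP_7dcdb2_al.PlusMatrixExtension

/-- The form `[x, y] = y* H x` on the columns of quaternions. -/
noncomputable def form {n : ℕ} (H : Matrix (Fin n) (Fin n) ℍ[ℝ]) (x y : Fin n → ℍ[ℝ]) : ℍ[ℝ] :=
  star y ⬝ᵥ (H *ᵥ x)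

/-- Subspaces of the right quaternion vector space of columns of length `n`. -/
abbrev RightSubspace (n : ℕ) : Type := Submodule ℍ[ℝ]ᵐᵒᵖ (Fin n → ℍ[ℝ])

/-- `M` is `H`-nonnegative: `[x, x] ≥ 0` on `M` (for hermitian `H` the number `[x, x]` is real). -/
def IsNonneg {n : ℕ} (H : Matrix (Fin n) (Fin n) ℍ[ℝ]) (M : RightSubspace n) : Prop :=
  ∀ x ∈ M, 0 ≤ (form H x x).re

/-- `A` is an `H`-plus-matrix: `[x, x] ≥ 0` implies `[A x, A x] ≥ 0`. -/
def IsPlusMatrix {n : ℕ} (H A : Matrix (Fin n) (Fin n) ℍ[ℝ]) : Prop :=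
  ∀ x, 0 ≤ (form H x x).re → 0 ≤ (form H (A *ᵥ x) (A *ᵥ x)).re

/-- `M` is `A`-invariant. -/
def IsInvariant {n : ℕ} (A : Matrix (Fin n) (Fin n) ℍ[ℝ]) (M : RightSubspace n) : Prop :=
  ∀ x ∈ M, A *ᵥ x ∈ M

/-- `In₊(H) = p`, `In₋(H) = q`, `In₀(H) = ν`: for some invertible `S`, the matrix `S* H S` is the
diagonal matrix with `p` entries `1`, `q` entries `-1` and `ν` entries `0`. -/
def HasInertia {n : ℕ} (H : Matrix (Fin n) (Fin n) ℍ[ℝ]) (p q ν : ℕ) : Prop :=
  ∃ (S : Matrix (Fin n) (Fin n) ℍ[ℝ]) (e : Fin n ≃ Fin p ⊕ (Fin q ⊕ Fin ν)), IsUnit S ∧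
    Sᴴ * H * S = Matrix.diagonal
      (fun i => Sum.elim (fun _ => 1) (Sum.elim (fun _ => -1) (fun _ => 0)) (e i))

/-- The extension property of the question for the pair `H`, `A`, where `In₊(H) + In₀(H) = d`:
every `A`-invariant `H`-nonnegative subspace lies in an `A`-invariant `H`-nonnegative subspace of
dimension `d`. -/
def Extends {n : ℕ} (H A : Matrix (Fin n) (Fin n) ℍ[ℝ]) (d : ℕ) : Prop :=
  ∀ M₀ : RightSubspace n, IsInvariant A M₀ → IsNonneg H M₀ →
    ∃ M : RightSubspace n, M₀ ≤ M ∧ IsInvariant A M ∧ IsNonneg H M ∧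
      Module.finrank ℍ[ℝ]ᵐᵒᵖ M = d

/-! ### Right modules -/

/-- The quaternions as a right module. -/
noncomputable def opL : ℍ[ℝ] ≃ₗ[ℍ[ℝ]ᵐᵒᵖ] ℍ[ℝ]ᵐᵒᵖ where
  toFun := op
  invFun := unop
  left_inv := fun _ => rfl
  right_inv := fun _ => rfl
  map_add' := fun _ _ => rfl
  map_smul' := fun _ _ => rfl

instance finiteRight (ι : Type) [Fintype ι] : Module.Finite ℍ[ℝ]ᵐᵒᵖ (ι → ℍ[ℝ]) := by
  have : Module.Finite ℍ[ℝ]ᵐᵒᵖ ℍ[ℝ] := Module.Finite.equiv opL.symm
  infer_instance

lemma finrank_right (ι : Type) [Fintype ι] :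
    Module.finrank ℍ[ℝ]ᵐᵒᵖ (ι → ℍ[ℝ]) = Fintype.card ι := by
  have e : (ι → ℍ[ℝ]) ≃ₗ[ℍ[ℝ]ᵐᵒᵖ] (ι → ℍ[ℝ]ᵐᵒᵖ) := LinearEquiv.piCongrRight (fun _ => opL)
  rw [e.finrank_eq, Module.finrank_fintype_fun_eq_card]

/-- Multiplication by a matrix, as a map of right vector spaces. -/
noncomputable def mulL {n : ℕ} (A : Matrix (Fin n) (Fin n) ℍ[ℝ]) :
    (Fin n → ℍ[ℝ]) →ₗ[ℍ[ℝ]ᵐᵒᵖ] (Fin n → ℍ[ℝ]) where
  toFun x := A *ᵥ x
  map_add' x y := Matrix.mulVec_add A x y
  map_smul' q x := Matrix.mulVec_smul A q x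

/-- The signs. -/
noncomputable def sgn (p q ν : ℕ) : Fin p ⊕ (Fin q ⊕ Fin ν) → ℝ :=
  Sum.elim (fun _ => 1) (Sum.elim (fun _ => -1) (fun _ => 0))

section
variable {n p q ν : ℕ} {H S T : Matrix (Fin n) (Fin n) ℍ[ℝ]}
  {e : Fin n ≃ Fin p ⊕ (Fin q ⊕ Fin ν)}

/-- The diagonal matrix of the inertia. -/
abbrev IsDiag (H S : Matrix (Fin n) (Fin n) ℍ[ℝ]) (e : Fin n ≃ Fin p ⊕ (Fin q ⊕ Fin ν)) : Prop :=
  Sᴴ * H * S = Matrix.diagonal
      (fun i => Sum.elim (fun _ => 1) (Sum.elim (fun _ => -1) (fun _ => 0)) (e i))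

lemma re_sum {ι : Type} (s : Finset ι) (r : ι → ℝ) :
    (∑ i ∈ s, ((r i : ℝ) : ℍ[ℝ])).re = ∑ i ∈ s, r i := by
  classical
  induction s using Finset.induction_on with
  | empty => simp
  | insert a s ha ih => rw [Finset.sum_insert ha, Finset.sum_insert ha]; simp [ih]

lemma form_coord (hS : IsDiag H S e) (y : Fin n → ℍ[ℝ]) :
    (form H (S *ᵥ y) (S *ᵥ y)).re = ∑ i, sgn p q ν (e i) * ‖y i‖ ^ 2 := by
  have h1 : form H (S *ᵥ y) (S *ᵥ y) = star y ⬝ᵥ ((Sᴴ * H * S) *ᵥ y) := by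
    unfold form
    rw [Matrix.star_mulVec, ← Matrix.dotProduct_mulVec, Matrix.mulVec_mulVec,
      Matrix.mulVec_mulVec, Matrix.mul_assoc]
  rw [h1, hS, dotProduct]
  have h2 : ∀ i, star y i * (Matrix.diagonal
      (fun i => Sum.elim (fun _ => (1 : ℍ[ℝ])) (Sum.elim (fun _ => -1) (fun _ => 0)) (e i))
        *ᵥ y) i = ((sgn p q ν (e i) * ‖y i‖ ^ 2 : ℝ) : ℍ[ℝ]) := by
    intro i
    rw [Matrix.mulVec_diagonal]
    have h3 : star (y i) * y i = ((‖y i‖ ^ 2 : ℝ) : ℍ[ℝ]) := by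
      rw [Quaternion.star_mul_self, Quaternion.normSq_eq_norm_mul_self, sq]
    rcases e i with a | a | a
    · simp [sgn, h3]
    · simp only [sgn, Sum.elim_inr, Sum.elim_inl, Pi.star_apply, neg_mul, one_mul, mul_neg, h3]
      push_cast
      rfl
    · simp [sgn]
  rw [Finset.sum_congr rfl (fun i _ => h2 i), re_sum]

/-- The form in block coordinates. -/
lemma form_blocks (hS : IsDiag H S e) (y : Fin n → ℍ[ℝ]) :
    (form H (S *ᵥ y) (S *ᵥ y)).re =
      ∑ a : Fin p, ‖y (e.symm (Sum.inl a))‖ ^ 2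
        - ∑ b : Fin q, ‖y (e.symm (Sum.inr (Sum.inl b)))‖ ^ 2 := by
  rw [form_coord hS, ← Equiv.sum_comp e.symm]
  simp only [Equiv.apply_symm_apply, Fintype.sum_sum_type, sgn, Sum.elim_inl, Sum.elim_inr,
    one_mul, neg_mul, zero_mul, Finset.sum_const_zero, add_zero, Finset.sum_neg_distrib]
  ring

lemma form_blocks' (hS : IsDiag H S e) (hT : S * T = 1) (x : Fin n → ℍ[ℝ]) :
    (form H x x).re =
      ∑ a : Fin p, ‖(T *ᵥ x) (e.symm (Sum.inl a))‖ ^ 2
        - ∑ b : Fin q, ‖(T *ᵥ x) (e.symm (Sum.inr (Sum.inl b)))‖ ^ 2 := by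
  rw [← form_blocks hS, Matrix.mulVec_mulVec, hT, Matrix.one_mulVec]

/-- The coordinates outside the negative block. -/
noncomputable def proj (T : Matrix (Fin n) (Fin n) ℍ[ℝ]) (e : Fin n ≃ Fin p ⊕ (Fin q ⊕ Fin ν)) :
    (Fin n → ℍ[ℝ]) →ₗ[ℍ[ℝ]ᵐᵒᵖ] (Fin p ⊕ Fin ν → ℍ[ℝ]) where
  toFun x := Sum.elim (fun a => (T *ᵥ x) (e.symm (Sum.inl a)))
    (fun c => (T *ᵥ x) (e.symm (Sum.inr (Sum.inr c))))
  map_add' x y := by
    funext i; rcases i with a | c <;> simp [Matrix.mulVec_add]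
  map_smul' k x := by
    funext i; rcases i with a | c <;> simp [Matrix.mulVec_smul]

lemma eq_zero_of_proj (hS : IsDiag H S e) (hT : S * T = 1) {x : Fin n → ℍ[ℝ]}
    (hx : 0 ≤ (form H x x).re) (h : proj T e x = 0) : x = 0 := by
  have ha : ∀ a, (T *ᵥ x) (e.symm (Sum.inl a)) = 0 := fun a => congrFun h (Sum.inl a)
  have hc : ∀ c, (T *ᵥ x) (e.symm (Sum.inr (Sum.inr c))) = 0 := fun c => congrFun h (Sum.inr c)
  rw [form_blocks' hS hT] at hx
  simp only [ha, norm_zero, ne_eq, OfNat.ofNat_ne_zero, not_false_eq_true, zero_pow,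
    Finset.sum_const_zero, zero_sub] at hx
  have hb : ∀ b, (T *ᵥ x) (e.symm (Sum.inr (Sum.inl b))) = 0 := by
    intro b
    have h0 : ∑ b : Fin q, ‖(T *ᵥ x) (e.symm (Sum.inr (Sum.inl b)))‖ ^ 2 = 0 :=
      le_antisymm (by linarith) (Finset.sum_nonneg fun _ _ => by positivity)
    have := (Finset.sum_eq_zero_iff_of_nonneg (fun _ _ => by positivity)).1 h0 b
      (Finset.mem_univ b)
    simpa using this
  have hz : T *ᵥ x = 0 := by
    funext i
    obtain ⟨j, rfl⟩ := e.symm.surjective i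
    rcases j with a | b | c
    · exact ha a
    · exact hb b
    · exact hc c
  have : S *ᵥ (T *ᵥ x) = x := by rw [Matrix.mulVec_mulVec, hT, Matrix.one_mulVec]
  rw [← this, hz, Matrix.mulVec_zero]

/-- The dimension bound for nonnegative subspaces. -/
lemma finrank_le (hS : IsDiag H S e) (hT : S * T = 1) {M : RightSubspace n}
    (hM : IsNonneg H M) : Module.finrank ℍ[ℝ]ᵐᵒᵖ M ≤ p + ν := by
  have hinj : Function.Injective ((proj T e).comp M.subtype) := by
    rw [← LinearMap.ker_eq_bot, LinearMap.ker_eq_bot']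
    intro x hx
    exact Subtype.ext (eq_zero_of_proj hS hT (hM x x.2) hx)
  have := LinearMap.finrank_le_finrank_of_injective hinj
  rwa [finrank_right, Fintype.card_sum, Fintype.card_fin, Fintype.card_fin] at this

/-- Vectors which do not change the form lie in every maximal nonnegative subspace. -/
lemma mem_of_max (hS : IsDiag H S e) (hT : S * T = 1) {M : RightSubspace n}
    (hM : IsNonneg H M) (hd : Module.finrank ℍ[ℝ]ᵐᵒᵖ M = p + ν) {w : Fin n → ℍ[ℝ]}
    (hw : ∀ (x : Fin n → ℍ[ℝ]) (k : ℍ[ℝ]ᵐᵒᵖ),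
      (form H (x + k • w) (x + k • w)).re = (form H x x).re) : w ∈ M := by
  have hM' : IsNonneg H (M ⊔ Submodule.span _ {w}) := by
    intro z hz
    obtain ⟨x, hx, y, hy, rfl⟩ := Submodule.mem_sup.1 hz
    obtain ⟨k, rfl⟩ := Submodule.mem_span_singleton.1 hy
    rw [hw]
    exact hM x hx
  have h1 := finrank_le hS hT hM'
  have h2 : M = M ⊔ Submodule.span _ {w} :=
    Submodule.eq_of_le_of_finrank_le le_sup_left (by rw [hd]; exact h1)
  rw [h2]
  exact Submodule.mem_sup_right (Submodule.mem_span_singleton_self w)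

lemma card_eq (e : Fin n ≃ Fin p ⊕ (Fin q ⊕ Fin ν)) : n = p + (q + ν) := by
  have := Fintype.card_congr e
  simpa using this

/-- The case `q = 0`. -/
lemma extends_of_q (hS : IsDiag H S e) (hT : S * T = 1) (hq : q = 0)
    (A : Matrix (Fin n) (Fin n) ℍ[ℝ]) : Extends H A (p + ν) := by
  subst hq
  intro M₀ _ _
  refine ⟨⊤, le_top, fun _ _ => Submodule.mem_top, ?_, ?_⟩
  · intro x _
    rw [form_blocks' hS hT]
    simp only [Finset.univ_eq_empty, Finset.sum_empty, sub_zero]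
    exact Finset.sum_nonneg fun _ _ => by positivity
  · rw [finrank_top, finrank_right, Fintype.card_fin, card_eq e]
    ring

/-- The inclusion of the kernel block. -/
noncomputable def incl (S : Matrix (Fin n) (Fin n) ℍ[ℝ]) (e : Fin n ≃ Fin p ⊕ (Fin q ⊕ Fin ν)) :
    (Fin ν → ℍ[ℝ]) →ₗ[ℍ[ℝ]ᵐᵒᵖ] (Fin n → ℍ[ℝ]) where
  toFun z := S *ᵥ (fun i => Sum.elim (fun _ => 0) (Sum.elim (fun _ => 0) z) (e i))
  map_add' x y := by
    rw [← Matrix.mulVec_add]
    congr 1
    funext i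
    simp only [Pi.add_apply]
    rcases e i with a | b | c <;> simp
  map_smul' k x := by
    rw [← Matrix.mulVec_smul]
    congr 1
    funext i
    simp only [Pi.smul_apply]
    rcases e i with a | b | c <;> simp

/-- The case `p = 0`. -/
lemma extends_of_p (hS : IsDiag H S e) (hT : S * T = 1) (hT' : T * S = 1) (hp : p = 0)
    (A : Matrix (Fin n) (Fin n) ℍ[ℝ]) (hA : IsPlusMatrix H A) : Extends H A (p + ν) := by
  subst hp
  have key : ∀ x : Fin n → ℍ[ℝ], 0 ≤ (form H x x).re ↔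
      ∀ b, (T *ᵥ x) (e.symm (Sum.inr (Sum.inl b))) = 0 := by
    intro x
    rw [form_blocks' hS hT]
    simp only [Finset.univ_eq_empty, Finset.sum_empty, zero_sub]
    constructor
    · intro h b
      have h0 : ∑ b : Fin q, ‖(T *ᵥ x) (e.symm (Sum.inr (Sum.inl b)))‖ ^ 2 = 0 :=
        le_antisymm (by linarith) (Finset.sum_nonneg fun _ _ => by positivity)
      have := (Finset.sum_eq_zero_iff_of_nonneg (fun _ _ => by positivity)).1 h0 b
        (Finset.mem_univ b)
      simpa using this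
    · intro h
      simp [h]
  intro M₀ _ hM₀
  let M : RightSubspace n :=
    { carrier := {x | 0 ≤ (form H x x).re}
      add_mem' := by
        intro x y hx hy
        simp only [Set.mem_ofPred_eq] at *
        rw [key] at *
        intro b
        rw [Matrix.mulVec_add, Pi.add_apply, hx b, hy b, add_zero]
      zero_mem' := by
        simp only [Set.mem_ofPred_eq]
        rw [key]
        intro b
        rw [Matrix.mulVec_zero, Pi.zero_apply]
      smul_mem' := by
        intro k x hx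
        simp only [Set.mem_ofPred_eq] at *
        rw [key] at *
        intro b
        rw [Matrix.mulVec_smul, Pi.smul_apply, hx b, smul_zero] }
  have hMn : IsNonneg H M := fun x hx => hx
  refine ⟨M, fun x hx => hM₀ x hx, fun x hx => hA x hx, hMn, le_antisymm (finrank_le hS hT hMn) ?_⟩
  have hmem : ∀ z : Fin ν → ℍ[ℝ], incl S e z ∈ M := by
    intro z
    change 0 ≤ (form H (incl S e z) (incl S e z)).re
    rw [key]
    intro b
    change (T *ᵥ (S *ᵥ _)) _ = 0
    rw [Matrix.mulVec_mulVec, hT', Matrix.one_mulVec]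
    simp
  have hinj : Function.Injective ((incl S e).codRestrict M hmem) := by
    intro z z' h
    have h1 : incl S e z = incl S e z' := congrArg Subtype.val h
    have h2 : T *ᵥ (incl S e z) = T *ᵥ (incl S e z') := by rw [h1]
    change T *ᵥ (S *ᵥ _) = T *ᵥ (S *ᵥ _) at h2
    rw [Matrix.mulVec_mulVec, Matrix.mulVec_mulVec, hT', Matrix.one_mulVec,
      Matrix.one_mulVec] at h2
    funext c
    have := congrFun h2 (e.symm (Sum.inr (Sum.inr c)))
    simpa using this
  have := LinearMap.finrank_le_finrank_of_injective hinj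
  rw [finrank_right, Fintype.card_fin] at this
  simpa using this

/-- The counterexample for `p, q, ν ≥ 1`. -/
lemma not_extends (hS : IsDiag H S e) (hT : S * T = 1) (hT' : T * S = 1)
    (hp : 0 < p) (hq : 0 < q) (hν : 0 < ν) :
    ∃ A : Matrix (Fin n) (Fin n) ℍ[ℝ], IsPlusMatrix H A ∧ ¬ Extends H A (p + ν) := by
  classical
  let a₀ : Fin p := ⟨0, hp⟩
  let b₀ : Fin q := ⟨0, hq⟩
  let c₀ : Fin ν := ⟨0, hν⟩
  let ia : Fin n := e.symm (Sum.inl a₀)
  let ib : Fin n := e.symm (Sum.inr (Sum.inl b₀))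
  let ic : Fin n := e.symm (Sum.inr (Sum.inr c₀))
  have hab : ia ≠ ib := by simp [ia, ib]
  have hac : ia ≠ ic := by simp [ia, ic]
  have hbc : ib ≠ ic := by simp [ib, ic]
  let v : Fin n → ℍ[ℝ] := Pi.single ia 1 + Pi.single ib 1
  let m : Fin n → ℍ[ℝ] := Pi.single ia 1 - Pi.single ib 1
  let w : Fin n → ℍ[ℝ] := Pi.single ic 1
  let B : Matrix (Fin n) (Fin n) ℍ[ℝ] := Matrix.vecMulVec v w
  have hB : ∀ y, B *ᵥ y = fun i => v i * y ic := by
    intro y
    funext i
    simp only [B, Matrix.mulVec, dotProduct, Matrix.vecMulVec_apply]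
    rw [Finset.sum_eq_single ic]
    · simp [w]
    · intro j _ hj
      simp [w, hj]
    · intro h
      exact absurd (Finset.mem_univ _) h
  -- the form on multiples of single combinations
  have hform : ∀ (s k : ℍ[ℝ]), (form H (S *ᵥ (fun i => (Pi.single ia 1 : Fin n → ℍ[ℝ]) i * k
      + (Pi.single ib 1 : Fin n → ℍ[ℝ]) i * s))
      (S *ᵥ (fun i => (Pi.single ia 1 : Fin n → ℍ[ℝ]) i * k
      + (Pi.single ib 1 : Fin n → ℍ[ℝ]) i * s))).re = ‖k‖ ^ 2 - ‖s‖ ^ 2 := by
    intro s k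
    rw [form_blocks hS]
    congr 1
    · rw [Finset.sum_eq_single a₀]
      · simp [ia, ib]
      · intro a _ ha
        have h1 : e.symm (Sum.inl a) ≠ ia := by
          simp only [ia, ne_eq, EmbeddingLike.apply_eq_iff_eq, Sum.inl.injEq]
          exact ha
        have h2 : e.symm (Sum.inl a) ≠ ib := by simp [ib]
        simp [h1, h2]
      · intro h
        exact absurd (Finset.mem_univ _) h
    · rw [Finset.sum_eq_single b₀]
      · simp [ia, ib]
      · intro b _ hb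
        have h1 : e.symm (Sum.inr (Sum.inl b)) ≠ ib := by
          simp only [ib, ne_eq, EmbeddingLike.apply_eq_iff_eq, Sum.inr.injEq, Sum.inl.injEq]
          exact hb
        have h2 : e.symm (Sum.inr (Sum.inl b)) ≠ ia := by simp [ia]
        simp [h1, h2]
      · intro h
        exact absurd (Finset.mem_univ _) h
  refine ⟨S * B * T, ?_, ?_⟩
  · intro x _
    have h1 : (S * B * T) *ᵥ x = S *ᵥ (fun i => (Pi.single ia 1 : Fin n → ℍ[ℝ]) i * (T *ᵥ x) ic
      + (Pi.single ib 1 : Fin n → ℍ[ℝ]) i * (T *ᵥ x) ic) := by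
      rw [← Matrix.mulVec_mulVec, ← Matrix.mulVec_mulVec, hB]
      congr 1
      funext i
      simp only [v, Pi.add_apply, add_mul]
    rw [h1, hform]
    simp
  · intro hext
    let M₀ : RightSubspace n := Submodule.span _ {S *ᵥ m}
    have hm : ∀ k : ℍ[ℝ]ᵐᵒᵖ, k • (S *ᵥ m) = S *ᵥ (fun i => (Pi.single ia 1 : Fin n → ℍ[ℝ]) i * unop k
      + (Pi.single ib 1 : Fin n → ℍ[ℝ]) i * (-unop k)) := by
      intro k
      rw [← Matrix.mulVec_smul]
      congr 1
      funext i
      simp only [m, Pi.smul_apply, Pi.sub_apply]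
      change (_ - _) * unop k = _
      rw [sub_mul, mul_neg, sub_eq_add_neg]
    have hinv : IsInvariant (S * B * T) M₀ := by
      intro x hx
      obtain ⟨k, rfl⟩ := Submodule.mem_span_singleton.1 hx
      have : (S * B * T) *ᵥ (k • (S *ᵥ m)) = 0 := by
        rw [Matrix.mulVec_smul, ← Matrix.mulVec_mulVec, ← Matrix.mulVec_mulVec,
          Matrix.mulVec_mulVec _ T S, hT', Matrix.one_mulVec, hB]
        have : (fun i => v i * m ic) = (0 : Fin n → ℍ[ℝ]) := by
          funext i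
          simp [m, hac.symm, hbc.symm]
        rw [this, Matrix.mulVec_zero, smul_zero]
      rw [this]
      exact Submodule.zero_mem _
    have hnn : IsNonneg H M₀ := by
      intro x hx
      obtain ⟨k, rfl⟩ := Submodule.mem_span_singleton.1 hx
      rw [hm, hform]
      simp
    obtain ⟨M, hle, hMinv, hMn, hMd⟩ := hext M₀ hinv hnn
    have hwM : S *ᵥ w ∈ M := by
      apply mem_of_max hS hT hMn hMd
      intro x k
      have h1 : x + k • (S *ᵥ w) = S *ᵥ (T *ᵥ x + k • w) := by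
        rw [Matrix.mulVec_add, Matrix.mulVec_mulVec, hT, Matrix.one_mulVec, Matrix.mulVec_smul]
      rw [h1, form_blocks hS, form_blocks' hS hT]
      congr 1
      · refine Finset.sum_congr rfl fun a _ => ?_
        have : e.symm (Sum.inl a) ≠ ic := by simp [ic]
        simp [w, this]
      · refine Finset.sum_congr rfl fun b _ => ?_
        have : e.symm (Sum.inr (Sum.inl b)) ≠ ic := by simp [ic]
        simp [w, this]
    have hvM : S *ᵥ v ∈ M := by
      have h1 := hMinv _ hwM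
      have h2 : (S * B * T) *ᵥ (S *ᵥ w) = S *ᵥ v := by
        rw [← Matrix.mulVec_mulVec, ← Matrix.mulVec_mulVec, Matrix.mulVec_mulVec _ T S, hT',
          Matrix.one_mulVec, hB]
        congr 1
        funext i
        simp [w]
      rwa [h2] at h1
    have hmM : S *ᵥ m ∈ M := hle (Submodule.mem_span_singleton_self _)
    have hbM := hMn _ (M.sub_mem hvM hmM)
    have h3 : S *ᵥ v - S *ᵥ m = S *ᵥ (fun i => (Pi.single ia 1 : Fin n → ℍ[ℝ]) i * 0
      + (Pi.single ib 1 : Fin n → ℍ[ℝ]) i * 2) := by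
      rw [← Matrix.mulVec_sub]
      congr 1
      funext i
      simp only [v, m, Pi.sub_apply, Pi.add_apply, mul_zero, zero_add, mul_two]
      abel
    rw [h3, hform, norm_zero] at hbM
    have h5 : (2 : ℍ[ℝ]) ≠ 0 := by
      intro h
      have h6 : (1 + 1 : ℍ[ℝ]).re = 0 := by
        rw [one_add_one_eq_two, h]
        rfl
      rw [Quaternion.re_add, Quaternion.re_one] at h6
      norm_num at h6
    have h4 : 0 < ‖(2 : ℍ[ℝ])‖ := norm_pos_iff.2 h5
    nlinarith

end

/-- Singular case of the extension problem for quaternion plus-matrices: for a hermitian `H` with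
`In₊(H) = p`, `In₋(H) = q` and `In₀(H) = ν > 0`, the extension property holds for all
`H`-plus-matrices if and only if `p = 0` or `q = 0`; every `(p, q, ν)` occurs; and the statement
of the problem is false. -/
theorem result :
    (∀ (n p q ν : ℕ) (H : Matrix (Fin n) (Fin n) ℍ[ℝ]), Hᴴ = H → HasInertia H p q ν → 0 < ν →
      ((∀ A, IsPlusMatrix H A → Extends H A (p + ν)) ↔ (p = 0 ∨ q = 0))) ∧
    (∀ p q ν : ℕ, ∃ H : Matrix (Fin (p + (q + ν))) (Fin (p + (q + ν))) ℍ[ℝ],
      Hᴴ = H ∧ HasInertia H p q ν) ∧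
    ¬ (∀ (n p q ν : ℕ) (H A : Matrix (Fin n) (Fin n) ℍ[ℝ]), Hᴴ = H → HasInertia H p q ν → 0 < ν →
      IsPlusMatrix H A → Extends H A (p + ν)) := by
  have h1 : ∀ (n p q ν : ℕ) (H : Matrix (Fin n) (Fin n) ℍ[ℝ]), Hᴴ = H → HasInertia H p q ν →
      0 < ν → ((∀ A, IsPlusMatrix H A → Extends H A (p + ν)) ↔ (p = 0 ∨ q = 0)) := by
    intro n p q ν H _ hin hν
    obtain ⟨S, e, hSu, hS⟩ := hin
    obtain ⟨T, hT, hT'⟩ : ∃ T, S * T = 1 ∧ T * S = 1 := by
      obtain ⟨u, rfl⟩ := hSu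
      exact ⟨↑u⁻¹, by simp, by simp⟩
    constructor
    · intro h
      by_contra hcon
      rw [not_or] at hcon
      obtain ⟨A, hA, hA'⟩ := not_extends hS hT hT' (Nat.pos_of_ne_zero hcon.1)
        (Nat.pos_of_ne_zero hcon.2) hν
      exact hA' (h A hA)
    · rintro (hp | hq) A hA
      · exact extends_of_p hS hT hT' hp A hA
      · exact extends_of_q hS hT hq A
  have h2 : ∀ p q ν : ℕ, ∃ H : Matrix (Fin (p + (q + ν))) (Fin (p + (q + ν))) ℍ[ℝ],
      Hᴴ = H ∧ HasInertia H p q ν := by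
    intro p q ν
    let e : Fin (p + (q + ν)) ≃ Fin p ⊕ (Fin q ⊕ Fin ν) :=
      (finSumFinEquiv.symm).trans (Equiv.sumCongr (Equiv.refl _) finSumFinEquiv.symm)
    refine ⟨Matrix.diagonal
      (fun i => Sum.elim (fun _ => 1) (Sum.elim (fun _ => -1) (fun _ => 0)) (e i)), ?_,
      1, e, isUnit_one, by simp⟩
    rw [Matrix.diagonal_conjTranspose]
    congr 1
    funext i
    simp only [Pi.star_apply]
    rcases e i with a | b | c <;> simp
  refine ⟨h1, h2, fun h => ?_⟩
  obtain ⟨H, hH, hin⟩ := h2 1 1 1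
  rcases (h1 _ 1 1 1 H hH hin one_pos).1 (fun A hA => h _ 1 1 1 H A hH hin one_pos hA) with h0 | h0
  · exact one_ne_zero h0
  · exact one_ne_zero h0

end Pool.Agent.Results.MP_7dcdb2_al.PlusMatrixExtension
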